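import Pool.Agent.Lib.MP_6bc78b_nt.GP.H3.Defs10

/-! Project GP10, module SEQK: the sequence of scales. -/

set_option autoImplicit false

open Filter Topology

namespace Pool.Agent.Lib.MP_6bc78b_nt.GP.G10S

open Pool.Agent.Lib.MP_6bc78b_nt.GP.G8 Pool.Agent.Lib.MP_6bc78b_nt.GP.G10

lemma quad_le (k : ℕ) : ((k : ℝ) + 1) * ((k : ℝ) + 2) ≤ 2 * 4 ^ k := by
  induction k with
  | zero => norm_num
  | succ k ih =>
    have h0 : (0 : ℝ) ≤ k := Nat.cast_nonneg k
    have h1 : (1 : ℝ) ≤ 4 ^ k := one_le_pow₀ (by norm_num)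
    push_cast
    rw [pow_succ]
    nlinarith

lemma dl_pos (k : ℕ) : 0 < dl k := by
  unfold dl
  positivity

/-- `a = dl k / 32`. -/
lemma dl_bounds (k : ℕ) : 0 < dl k / 32 ∧ dl k / 32 ≤ 1 / 100 ∧
    1 ≤ dl k / 32 * (104 * 4 ^ k) := by
  have h0 : (0 : ℝ) ≤ k := Nat.cast_nonneg k
  have h1 := quad_le k
  have hq : (0 : ℝ) < ((k : ℝ) + 1) * ((k : ℝ) + 2) := by positivity
  have e : dl k / 32 = 5 / (256 * (((k : ℝ) + 1) * ((k : ℝ) + 2))) := by
    unfold dl
    field_simp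
    ring
  refine ⟨div_pos (dl_pos k) (by norm_num), ?_, ?_⟩
  · rw [e, div_le_div_iff₀ (by positivity) (by norm_num)]
    nlinarith
  · rw [e, div_mul_eq_mul_div, le_div_iff₀ (by positivity)]
    nlinarith

/-- The logarithms of the scales. -/
noncomputable def uu (u0 : ℝ) : ℕ → ℝ
  | 0 => u0
  | (k + 1) => Real.exp (dl k / 32 * uu u0 k)

lemma uu_succ (u0 : ℝ) (k : ℕ) : uu u0 (k + 1) = Real.exp (dl k / 32 * uu u0 k) := rfl

lemma cube_le_exp {x : ℝ} (hx : 0 ≤ x) : x ^ 3 / 6 ≤ Real.exp x := by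
  have := Real.pow_div_factorial_le_exp x hx 3
  simpa [Nat.factorial] using this

lemma sq_le_exp {x : ℝ} (hx : 0 ≤ x) : x ^ 2 / 2 ≤ Real.exp x := by
  have := Real.pow_div_factorial_le_exp x hx 2
  simpa [Nat.factorial] using this

lemma s_ge (u0 N : ℝ) (hN : 1 ≤ N) (hu : 163840 * N ≤ u0) (k : ℕ) :
    1600 * (N * 4 ^ k) ≤ dl k / 32 * uu u0 k := by
  induction k with
  | zero =>
    have : uu u0 0 = u0 := rfl
    rw [this]
    unfold dl
    norm_num
    linarith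
  | succ k ih =>
    rw [uu_succ]
    set q : ℝ := N * 4 ^ k with hq
    have h4 : (1 : ℝ) ≤ 4 ^ k := one_le_pow₀ (by norm_num)
    have hq1 : 1 ≤ q := by
      rw [hq]
      nlinarith
    have h4q : (4 : ℝ) ^ k ≤ q := by
      rw [hq]
      nlinarith
    have e1 : N * 4 ^ (k + 1) = 4 * q := by
      rw [hq, pow_succ]
      ring
    rw [e1]
    obtain ⟨ha, -, hb⟩ := dl_bounds (k + 1)
    have hE : (1600 * q) ^ 3 / 6 ≤ Real.exp (dl k / 32 * uu u0 k) :=
      (cube_le_exp (by positivity)).trans (Real.exp_le_exp.2 ih)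
    set E := Real.exp (dl k / 32 * uu u0 k) with hEd
    have hE0 : 0 < E := Real.exp_pos _
    have e2 : (4 : ℝ) ^ (k + 1) ≤ 4 * q := by
      rw [pow_succ]
      linarith
    have h5 : 1 ≤ dl (k + 1) / 32 * (416 * q) := by
      refine hb.trans ?_
      refine mul_le_mul_of_nonneg_left ?_ ha.le
      linarith
    have h6 : 6400 * q * (416 * q) ≤ E := by
      refine le_trans ?_ hE
      have : (1600 * q) ^ 3 / 6 = 4096000000 / 6 * (q ^ 2 * q) := by ring
      rw [this]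
      have : q ^ 2 * 1 ≤ q ^ 2 * q := mul_le_mul_of_nonneg_left hq1 (sq_nonneg q)
      nlinarith
    calc 1600 * (4 * q) = 6400 * q * 1 := by ring
      _ ≤ 6400 * q * (dl (k + 1) / 32 * (416 * q)) :=
          mul_le_mul_of_nonneg_left h5 (by positivity)
      _ = dl (k + 1) / 32 * (6400 * q * (416 * q)) := by ring
      _ ≤ dl (k + 1) / 32 * E := mul_le_mul_of_nonneg_left h6 ha.le

/-- The big number. -/
lemma Z_ge (q s : ℝ) (hq : 1 ≤ q) (hs : 1600 * q ≤ s) :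
    1000000 * q ^ 3 * Real.exp (2 * q) ≤ Real.exp (s / 2) ∧ s ≤ Real.exp (s / 2) := by
  constructor
  · have h1 : Real.exp (2 * q) * Real.exp (798 * q) ≤ Real.exp (s / 2) := by
      rw [← Real.exp_add, Real.exp_le_exp]
      linarith
    have h2 := cube_le_exp (x := 798 * q) (by positivity)
    have h3 : 1000000 * q ^ 3 ≤ (798 * q) ^ 3 / 6 := by
      have : (798 * q) ^ 3 / 6 = 508169592 / 6 * q ^ 3 := by ring
      rw [this]
      have : 0 < q ^ 3 := by positivity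
      nlinarith
    calc 1000000 * q ^ 3 * Real.exp (2 * q) ≤ Real.exp (798 * q) * Real.exp (2 * q) :=
          mul_le_mul_of_nonneg_right (h3.trans h2) (Real.exp_pos _).le
      _ = Real.exp (2 * q) * Real.exp (798 * q) := mul_comm _ _
      _ ≤ _ := h1
  · have h2 := sq_le_exp (x := s / 2) (by linarith)
    refine le_trans ?_ h2
    nlinarith

lemma nb_le (P κ : ℝ) (K : ℕ) (hP : 1 ≤ P) (hκ : 0 < κ) :
    (nb P κ K : ℝ) ≤ K * Real.log P / κ + 1 := by
  unfold nb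
  refine (Nat.ceil_lt_add_one ?_).le
  have := Real.log_nonneg hP
  positivity

lemma QE_eq (P κ : ℝ) (K : ℕ) : QE P κ K = P * Real.exp (κ * nb P κ K) := rfl

lemma QE_le (P κ : ℝ) (K : ℕ) (hP : 1 ≤ P) (hκ : 0 < κ) :
    QE P κ K ≤ Real.exp (Real.log P + K * Real.log P + κ) := by
  rw [QE_eq]
  have h1 := nb_le P κ K hP hκ
  have h2 : κ * nb P κ K ≤ K * Real.log P + κ := by
    calc κ * nb P κ K ≤ κ * (K * Real.log P / κ + 1) := mul_le_mul_of_nonneg_left h1 hκ.le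
      _ = K * Real.log P + κ := by field_simp
  calc P * Real.exp (κ * nb P κ K) = Real.exp (Real.log P) * Real.exp (κ * nb P κ K) := by
        rw [Real.exp_log (by linarith)]
    _ = Real.exp (Real.log P + κ * nb P κ K) := (Real.exp_add _ _).symm
    _ ≤ _ := Real.exp_le_exp.2 (by linarith)

lemma QE_pos (P κ : ℝ) (K : ℕ) (hP : 0 < P) : 0 < QE P κ K := by
  rw [QE_eq]
  positivity

lemma log_QE_le (P κ : ℝ) (K : ℕ) (hP : 1 ≤ P) (hκ : 0 < κ) :
    Real.log (QE P κ K) ≤ Real.log P + K * Real.log P + κ := by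
  rw [Real.log_le_iff_le_exp (QE_pos P κ K (by linarith))]
  exact QE_le P κ K hP hκ

/-- One step, pure numbers. -/
lemma step (q a u s Z κ κ' K K' D : ℝ) (hq : 1 ≤ q) (ha : 0 < a) (ha1 : a ≤ 1 / 100)
    (haq : 1 ≤ a * (104 * q)) (hs : s = a * u) (hsq : 1600 * q ≤ s)
    (hZ : 1000000 * q ^ 3 * Real.exp (2 * q) ≤ Z) (hsZ : s ≤ Z)
    (hκ : 0 < κ) (hκ1 : κ ≤ 1) (hκq : 1 / κ ≤ 2 * q) (hκ' : 0 < κ') (hκ1' : κ' ≤ 1)
    (hκq' : 1 / κ' ≤ 4 * q) (hK0 : 0 ≤ K) (hK : K ≤ 2 * Real.exp (2 * q)) (_ : 0 ≤ K')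
    (hK' : K' ≤ 2 * Real.exp (2 * q)) (hD : D ≤ q) :
    u ≤ Z ^ 2 ∧ 8 * (Z ^ 2 + K' * Z ^ 2 + κ') ≤ Z ^ 2 * Z ^ 2 ∧
    u + K * u + κ ≤ 8 * a * Z ^ 2 ∧ K * u / κ ≤ 2 * a * Z ^ 2 ∧
    K' * Z ^ 2 / κ' ≤ (2 * a * Z ^ 2) ^ 2 / 2 ∧ D ≤ 8 * a * Z ^ 2 ∧ 1 / κ' ≤ u ∧ 1600 ≤ u := by
  have hX : 1 ≤ Real.exp (2 * q) := Real.one_le_exp (by linarith)
  set X := Real.exp (2 * q) with hXd
  have hq2 : q ≤ q ^ 2 := by nlinarith
  have hq3 : q ^ 2 ≤ q ^ 3 := by
    have : q ^ 2 * 1 ≤ q ^ 2 * q := mul_le_mul_of_nonneg_left hq (sq_nonneg q)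
    calc q ^ 2 = q ^ 2 * 1 := (mul_one _).symm
      _ ≤ q ^ 2 * q := this
      _ = q ^ 3 := by ring
  have hq31 : 1 ≤ q ^ 3 := by linarith
  have hu : u ≤ s * (104 * q) := by
    calc u = u * 1 := (mul_one _).symm
      _ ≤ u * (a * (104 * q)) := by
          refine mul_le_mul_of_nonneg_left haq ?_
          by_contra h
          push Not at h
          have : a * u < 0 := mul_neg_of_pos_of_neg ha h
          linarith
      _ = s * (104 * q) := by rw [hs]; ring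
  have hus : 100 * s ≤ u := by
    have hu0 : 0 ≤ u := by
      by_contra h
      push Not at h
      have : a * u < 0 := mul_neg_of_pos_of_neg ha h
      linarith
    have : a * u ≤ 1 / 100 * u := mul_le_mul_of_nonneg_right ha1 hu0
    rw [← hs] at this
    linarith
  have hZbig : 1000000 * (q ^ 3 * X) ≤ Z := by
    calc 1000000 * (q ^ 3 * X) = 1000000 * q ^ 3 * X := by ring
      _ ≤ Z := hZ
  have hq3X : 1 ≤ q ^ 3 * X := by nlinarith
  have hZ0 : 0 < Z := by linarith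
  have hZ1 : 1 ≤ Z := by linarith
  have hqX : q ≤ q ^ 3 * X := by nlinarith
  have hXX : X ≤ q ^ 3 * X := by nlinarith
  have huZ : u ≤ 104 * q * Z := by
    calc u ≤ s * (104 * q) := hu
      _ ≤ Z * (104 * q) := mul_le_mul_of_nonneg_right hsZ (by positivity)
      _ = 104 * q * Z := by ring
  have hu1 : 1 ≤ u := by linarith
  have hu0 : 0 < u := by linarith
  have hKX : 2 + K ≤ 4 * X := by linarith
  have hKX' : 2 + K' ≤ 4 * X := by linarith
  have h1a : 1 / a ≤ 104 * q := by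
    rw [div_le_iff₀ ha]
    linarith
  -- lower bound for `a Z`
  have haZ : ∀ c : ℝ, 0 ≤ c → 104 * q * c ≤ Z → c ≤ a * Z := by
    intro c hc h
    calc c = 1 * c := (one_mul c).symm
      _ ≤ a * (104 * q) * c := mul_le_mul_of_nonneg_right haq hc
      _ = a * (104 * q * c) := by ring
      _ ≤ a * Z := mul_le_mul_of_nonneg_left h ha.le
  refine ⟨?_, ?_, ?_, ?_, ?_, ?_, ?_, ?_⟩
  · calc u ≤ 104 * q * Z := huZ
      _ ≤ Z * Z := by
          refine mul_le_mul_of_nonneg_right ?_ hZ0.le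
          linarith
      _ = Z ^ 2 := by ring
  · have h1 : 1 ≤ Z ^ 2 := one_le_pow₀ hZ1
    have h2 : Z ^ 2 + K' * Z ^ 2 + κ' ≤ (2 + K') * Z ^ 2 := by nlinarith
    have h3 : 8 * (4 * X) ≤ Z ^ 2 := by
      have : Z ≤ Z ^ 2 := by nlinarith
      linarith
    calc 8 * (Z ^ 2 + K' * Z ^ 2 + κ') ≤ 8 * ((2 + K') * Z ^ 2) := by linarith
      _ ≤ 8 * (4 * X * Z ^ 2) := by
          have := mul_le_mul_of_nonneg_right hKX' (sq_nonneg Z)
          linarith
      _ = 8 * (4 * X) * Z ^ 2 := by ring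
      _ ≤ Z ^ 2 * Z ^ 2 := mul_le_mul_of_nonneg_right h3 (sq_nonneg Z)
  · have h2 : u + K * u + κ ≤ (2 + K) * u := by nlinarith
    have h3 : 4 * X * (104 * q) ≤ 8 * (a * Z) := by
      have := haZ (52 * X * q) (by positivity) (by
        calc 104 * q * (52 * X * q) = 5408 * (q ^ 2 * X) := by ring
          _ ≤ 5408 * (q ^ 3 * X) := by
              have := mul_le_mul_of_nonneg_right hq3 (by linarith : 0 ≤ X)
              linarith
          _ ≤ Z := by linarith)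
      linarith
    calc u + K * u + κ ≤ (2 + K) * u := h2
      _ ≤ 4 * X * (104 * q * Z) := mul_le_mul hKX huZ hu0.le (by positivity)
      _ = 4 * X * (104 * q) * Z := by ring
      _ ≤ 8 * (a * Z) * Z := mul_le_mul_of_nonneg_right h3 hZ0.le
      _ = 8 * a * Z ^ 2 := by ring
  · have h3 : 2 * X * (104 * q) * (2 * q) ≤ 2 * (a * Z) := by
      have := haZ (208 * X * q ^ 2) (by positivity) (by
        calc 104 * q * (208 * X * q ^ 2) = 21632 * (q ^ 3 * X) := by ring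
          _ ≤ Z := by linarith)
      nlinarith
    calc K * u / κ = K * u * (1 / κ) := by ring
      _ ≤ 2 * X * (104 * q * Z) * (2 * q) :=
          mul_le_mul (mul_le_mul hK huZ hu0.le (by positivity)) hκq (by positivity) (by positivity)
      _ = 2 * X * (104 * q) * (2 * q) * Z := by ring
      _ ≤ 2 * (a * Z) * Z := mul_le_mul_of_nonneg_right h3 hZ0.le
      _ = 2 * a * Z ^ 2 := by ring
  · have h3 : 8 * X * q ≤ 2 * (a * Z) * (a * Z) := by
      have h4 : 4 * X * q ≤ a * Z := haZ (4 * X * q) (by positivity) (by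
        calc 104 * q * (4 * X * q) = 416 * (q ^ 2 * X) := by ring
          _ ≤ 416 * (q ^ 3 * X) := by
              have := mul_le_mul_of_nonneg_right hq3 (by linarith : 0 ≤ X)
              linarith
          _ ≤ Z := by linarith)
      have h5 : 1 ≤ a * Z := haZ 1 (by norm_num) (by linarith)
      nlinarith
    calc K' * Z ^ 2 / κ' = K' * Z ^ 2 * (1 / κ') := by ring
      _ ≤ 2 * X * Z ^ 2 * (4 * q) :=
          mul_le_mul (mul_le_mul_of_nonneg_right hK' (sq_nonneg Z)) hκq' (by positivity)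
            (by positivity)
      _ = 8 * X * q * Z ^ 2 := by ring
      _ ≤ 2 * (a * Z) * (a * Z) * Z ^ 2 := mul_le_mul_of_nonneg_right h3 (sq_nonneg Z)
      _ = (2 * a * Z ^ 2) ^ 2 / 2 := by ring
  · have h5 : q ≤ a * Z := haZ q (by linarith) (by
        calc 104 * q * q = 104 * q ^ 2 := by ring
          _ ≤ 104 * (q ^ 3 * X) := by nlinarith
          _ ≤ Z := by linarith)
    have h6 : a * Z ≤ a * Z * Z := le_mul_of_one_le_right (by positivity) hZ1
    have h7 : 0 ≤ a * Z * Z := by positivity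
    calc D ≤ q := hD
      _ ≤ a * Z * Z := h5.trans h6
      _ ≤ 8 * (a * Z * Z) := by linarith
      _ = 8 * a * Z ^ 2 := by ring
  · linarith
  · linarith

lemma zero_step (q u δ n : ℝ) (hq : 1 ≤ q) (hu : 163840 * q ≤ u) (hδ : 0 < δ)
    (hδq : 1 / δ ≤ q) (hn0 : 0 ≤ n) (hn : n ≤ 2 * Real.exp (2 * q) * u * (2 * q) + 1) :
    Real.exp (u * -(1 / 4)) ≤ δ / (1 + n) ^ 2 := by
  have hX : 1 ≤ Real.exp (2 * q) := Real.one_le_exp (by linarith)
  have hu0 : 0 < u := by linarith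
  have h1 := sq_le_exp (x := u / 8) (by positivity)
  have h2 : Real.exp (2 * q) * Real.exp (2 * q) * ((20476 * q) ^ 3 / 6) ≤ Real.exp (u / 8) := by
    have h3 := cube_le_exp (x := 20476 * q) (by positivity)
    calc Real.exp (2 * q) * Real.exp (2 * q) * ((20476 * q) ^ 3 / 6)
        ≤ Real.exp (2 * q) * Real.exp (2 * q) * Real.exp (20476 * q) :=
          mul_le_mul_of_nonneg_left h3 (by positivity)
      _ = Real.exp (2 * q + 2 * q + 20476 * q) := by rw [Real.exp_add, Real.exp_add]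
      _ ≤ Real.exp (u / 8) := Real.exp_le_exp.2 (by linarith)
  set X := Real.exp (2 * q) with hXd
  have hX0 : 0 < X := Real.exp_pos _
  have h4 : X * X * (3200 * q ^ 3) ≤ Real.exp (u / 8) := by
    refine le_trans ?_ h2
    refine mul_le_mul_of_nonneg_left ?_ (by positivity)
    have : (20476 * q) ^ 3 / 6 = 20476 ^ 3 / 6 * q ^ 3 := by ring
    rw [this]
    have : 0 < q ^ 3 := by positivity
    nlinarith
  have h5 : 1 + n ≤ 5 * (q * X * u) := by
    have h6 : 1 ≤ q * X := by nlinarith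
    have h7 : u ≤ q * X * u := le_mul_of_one_le_left hu0.le h6
    have h8 : 2 * X * u * (2 * q) = 4 * (q * X * u) := by ring
    rw [h8] at hn
    linarith
  have h9 : (1 + n) ^ 2 ≤ 25 * (q * X * u) ^ 2 := by
    calc (1 + n) ^ 2 ≤ (5 * (q * X * u)) ^ 2 := pow_le_pow_left₀ (by linarith) h5 2
      _ = 25 * (q * X * u) ^ 2 := by ring
  have h10 : (1 + n) ^ 2 * (1 / δ) ≤ Real.exp (u / 4) := by
    have e : Real.exp (u / 4) = Real.exp (u / 8) * Real.exp (u / 8) := by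
      rw [← Real.exp_add]
      congr 1
      ring
    rw [e]
    calc (1 + n) ^ 2 * (1 / δ) ≤ 25 * (q * X * u) ^ 2 * q :=
          mul_le_mul h9 hδq (by positivity) (by positivity)
      _ = (u / 8) ^ 2 / 2 * (X * X * (3200 * q ^ 3)) := by ring
      _ ≤ _ := mul_le_mul h1 h4 (by positivity) (Real.exp_pos _).le
  have h11 : (1 + n) ^ 2 ≤ δ * Real.exp (u / 4) := by
    rw [mul_one_div, div_le_iff₀ hδ] at h10
    linarith
  have e2 : u * -(1 / 4) = -(u / 4) := by ring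
  rw [e2, Real.exp_neg, le_div_iff₀ (by positivity), inv_mul_le_iff₀ (Real.exp_pos _)]
  linarith

/-- The sequence of scales. -/
theorem seq_main (c δ B : ℝ) (hc : 0 < c) (hδ : 0 < δ) (hδ1 : δ < 1) :
    ∃ (P κ : ℕ → ℝ) (K : ℕ → ℕ),
  B ≤ P 0 ∧ (∀ k, 3 ≤ P k ∧ (k : ℝ) ≤ P k ∧ 0 < κ k ∧ κ k ≤ 1 / 2 ∧ κ k ≤ δ / 2 ^ k ∧ 1 ≤ K k ∧
    2 ^ k / δ ≤ c * Real.log (K k)) ∧
  P 0 ^ (-(1 / 4 : ℝ)) ≤ δ / (1 + nb (P 0) (κ 0) (K 0)) ^ 2 ∧
  ∀ k, P k ≤ P (k + 1) ∧
    8 * Real.log (QE (P (k + 1)) (κ (k + 1)) (K (k + 1))) ≤ P k ^ (dl k / 16) ∧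
    QE (P k) (κ k) (K k) ≤ P (k + 1) ^ (dl k / 4) ∧
    (nb (P k) (κ k) (K k) : ℝ) ≤ P (k + 1) ^ (dl k / 16) ∧
    (nb (P (k + 1)) (κ (k + 1)) (K (k + 1)) : ℝ) ≤ P (k + 1) ^ (dl k / 16) ∧
    P (k + 1) ^ (-(dl k / 4)) ≤ δ / 2 ^ k ∧ 1 / κ (k + 1) ≤ P k := by
  set N : ℝ := max (1 / (c * δ)) (1 / δ) with hN
  have hN1 : 1 ≤ N := by
    refine le_trans ?_ (le_max_right _ _)
    rw [le_div_iff₀ hδ]
    linarith
  have hNc : 1 / (c * δ) ≤ N := le_max_left _ _
  have hNd : 1 / δ ≤ N := le_max_right _ _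
  set u0 : ℝ := max (163840 * N) B with hu0
  have hu0N : 163840 * N ≤ u0 := le_max_left _ _
  set u : ℕ → ℝ := uu u0 with hu
  set κ : ℕ → ℝ := fun k => δ / 2 ^ (k + 1) with hκ
  set K : ℕ → ℕ := fun k => ⌈Real.exp (2 ^ k / (c * δ))⌉₊ with hK
  have hκ0 : ∀ k, 0 < κ k := fun k => by rw [hκ]; positivity
  have hp2 : ∀ k : ℕ, (1 : ℝ) ≤ 2 ^ k := fun k => one_le_pow₀ (by norm_num)
  have hp4 : ∀ k : ℕ, (1 : ℝ) ≤ 4 ^ k := fun k => one_le_pow₀ (by norm_num)
  have hp24 : ∀ k : ℕ, (2 : ℝ) ^ k ≤ 4 ^ k := fun k =>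
    pow_le_pow_left₀ (by norm_num) (by norm_num) k
  have hκh : ∀ k, κ k ≤ 1 / 2 := by
    intro k
    simp only [hκ]
    rw [div_le_iff₀ (by positivity), pow_succ]
    have := hp2 k
    nlinarith
  have hN2 : ∀ k : ℕ, (2 : ℝ) ^ k * N ≤ N * 4 ^ k := by
    intro k
    rw [mul_comm]
    exact mul_le_mul_of_nonneg_left (hp24 k) (by linarith)
  have hD : ∀ k : ℕ, (2 : ℝ) ^ k / δ ≤ N * 4 ^ k := by
    intro k
    calc (2 : ℝ) ^ k / δ = 2 ^ k * (1 / δ) := by ring
      _ ≤ 2 ^ k * N := mul_le_mul_of_nonneg_left hNd (by positivity)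
      _ ≤ _ := hN2 k
  have hKq : ∀ k : ℕ, (K k : ℝ) ≤ 2 * Real.exp (2 ^ k / (c * δ)) := by
    intro k
    have h1 : (K k : ℝ) < Real.exp (2 ^ k / (c * δ)) + 1 := Nat.ceil_lt_add_one (Real.exp_pos _).le
    have h2 : 1 ≤ Real.exp (2 ^ k / (c * δ)) := Real.one_le_exp (by positivity)
    linarith
  have hKc : ∀ k : ℕ, (2 : ℝ) ^ k / (c * δ) ≤ N * 4 ^ k := by
    intro k
    calc (2 : ℝ) ^ k / (c * δ) = 2 ^ k * (1 / (c * δ)) := by ring
      _ ≤ 2 ^ k * N := mul_le_mul_of_nonneg_left hNc (by positivity)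
      _ ≤ _ := hN2 k
  have hq1 : ∀ k : ℕ, 1 ≤ N * 4 ^ k := fun k => by
    have := hp4 k
    nlinarith
  have hK1 : ∀ k : ℕ, (K k : ℝ) ≤ 2 * Real.exp (2 * (N * 4 ^ k)) := by
    intro k
    refine (hKq k).trans ?_
    have h1 := hKc k
    have h2 := hq1 k
    have h3 : Real.exp (2 ^ k / (c * δ)) ≤ Real.exp (2 * (N * 4 ^ k)) :=
      Real.exp_le_exp.2 (by linarith)
    linarith
  have hK2 : ∀ k : ℕ, (K (k + 1) : ℝ) ≤ 2 * Real.exp (2 * (N * 4 ^ k)) := by
    intro k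
    refine (hKq (k + 1)).trans ?_
    have h1 := hKc k
    have h4 : (2 : ℝ) ^ (k + 1) / (c * δ) = 2 * (2 ^ k / (c * δ)) := by
      rw [pow_succ]
      ring
    have h3 : Real.exp (2 ^ (k + 1) / (c * δ)) ≤ Real.exp (2 * (N * 4 ^ k)) := by
      rw [Real.exp_le_exp, h4]
      linarith
    linarith
  have hκi : ∀ k : ℕ, 1 / κ k = 2 * (2 ^ k / δ) := by
    intro k
    simp only [hκ]
    rw [pow_succ]
    field_simp
  have hκi1 : ∀ k : ℕ, 1 / κ (k + 1) = 4 * (2 ^ k / δ) := by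
    intro k
    rw [hκi, pow_succ]
    ring
  have hstep : ∀ k : ℕ, _ := fun k => step (N * 4 ^ k) (dl k / 32) (u k) (dl k / 32 * u k)
    (Real.exp (dl k / 32 * u k / 2)) (κ k) (κ (k + 1)) (K k) (K (k + 1)) (2 ^ k / δ) (hq1 k)
    (dl_bounds k).1 (dl_bounds k).2.1
    ((dl_bounds k).2.2.trans (mul_le_mul_of_nonneg_left (by
      have := hp4 k
      nlinarith) (dl_bounds k).1.le)) rfl (s_ge u0 N hN1 hu0N k)
    (Z_ge _ _ (hq1 k) (s_ge u0 N hN1 hu0N k)).1 (Z_ge _ _ (hq1 k) (s_ge u0 N hN1 hu0N k)).2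
    (hκ0 k) (by linarith [hκh k]) (by rw [hκi]; linarith [hD k]) (hκ0 (k + 1))
    (by linarith [hκh (k + 1)]) (by rw [hκi1]; linarith [hD k]) (Nat.cast_nonneg _) (hK1 k)
    (Nat.cast_nonneg _) (hK2 k) (hD k)
  have hZ2 : ∀ k : ℕ, Real.exp (dl k / 32 * u k / 2) ^ 2 = u (k + 1) := by
    intro k
    rw [hu, uu_succ, ← Real.exp_nat_mul]
    congr 1
    push_cast
    ring
  have hZ4 : ∀ k : ℕ, u (k + 1) * u (k + 1) = Real.exp (u k * (dl k / 16)) := by
    intro k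
    rw [hu, uu_succ, ← Real.exp_add]
    congr 1
    ring
  simp only [hZ2] at hstep
  have hpow : ∀ (k : ℕ) (x : ℝ), Real.exp (u k) ^ x = Real.exp (u k * x) := fun k x =>
    (Real.exp_mul _ _).symm
  have hu1 : ∀ k, 1600 ≤ u k := fun k => (hstep k).2.2.2.2.2.2.2
  have hP1 : ∀ k, 1 ≤ Real.exp (u k) := fun k => Real.one_le_exp (by linarith [hu1 k])
  have hle : ∀ k, u k + 1 ≤ Real.exp (u k) := fun k => Real.add_one_le_exp _
  have hnb : ∀ k, (nb (Real.exp (u k)) (κ k) (K k) : ℝ) ≤ K k * u k / κ k + 1 := by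
    intro k
    have := nb_le (Real.exp (u k)) (κ k) (K k) (hP1 k) (hκ0 k)
    rwa [Real.log_exp] at this
  refine ⟨fun k => Real.exp (u k), κ, K, ?_, ?_, ?_, ?_⟩
  · have h1 : B ≤ u0 := le_max_right _ _
    have h2 : u 0 = u0 := rfl
    have := hle 0
    simp only
    linarith
  · intro k
    refine ⟨?_, ?_, hκ0 k, hκh k, ?_, ?_, ?_⟩
    · have := hle k
      have := hu1 k
      simp only
      linarith
    · have h1 : (k : ℝ) ≤ 4 ^ k := by
        have h : k < 4 ^ k := Nat.lt_pow_self (by norm_num)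
        exact_mod_cast h.le
      have h2 := s_ge u0 N hN1 hu0N k
      have h3 : dl k / 32 * u k ≤ u k := by
        have := (dl_bounds k).2.1
        have := hu1 k
        nlinarith [(dl_bounds k).1]
      have h4 : (4 : ℝ) ^ k ≤ N * 4 ^ k := le_mul_of_one_le_left (by positivity) hN1
      have h5 := hq1 k
      have := hle k
      simp only
      linarith
    · simp only [hκ]
      refine div_le_div_of_nonneg_left hδ.le (by positivity) ?_
      exact pow_le_pow_right₀ (by norm_num) (by omega)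
    · exact Nat.one_le_iff_ne_zero.2 (Nat.ceil_pos.2 (Real.exp_pos _)).ne'
    · have h1 : Real.exp (2 ^ k / (c * δ)) ≤ (K k : ℝ) := Nat.le_ceil _
      have h2 : 2 ^ k / (c * δ) ≤ Real.log (K k) := by
        rw [Real.le_log_iff_exp_le (lt_of_lt_of_le (Real.exp_pos _) h1)]
        exact h1
      calc (2 : ℝ) ^ k / δ = c * (2 ^ k / (c * δ)) := by field_simp
        _ ≤ c * Real.log (K k) := mul_le_mul_of_nonneg_left h2 hc.le
  · simp only [hpow]
    have h2 : u 0 = u0 := rfl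
    have h3 := hnb 0
    have h4 := hK1 0
    have h5 := hκi 0
    have h6 := hD 0
    simp only [pow_zero, mul_one] at h4 h5 h6
    refine zero_step N (u 0) δ _ hN1 (by rw [h2]; exact hu0N) hδ hNd (Nat.cast_nonneg _) ?_
    refine h3.trans ?_
    have h7 : 0 < u 0 := by linarith [hu1 0]
    have h8 : (K 0 : ℝ) * u 0 / κ 0 ≤ 2 * Real.exp (2 * N) * u 0 * (2 * N) := by
      calc (K 0 : ℝ) * u 0 / κ 0 = K 0 * u 0 * (1 / κ 0) := by ring
        _ ≤ 2 * Real.exp (2 * N) * u 0 * (2 * N) := by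
            refine mul_le_mul (mul_le_mul_of_nonneg_right h4 h7.le) ?_ ?_ (by positivity)
            · rw [h5]
              linarith
            · have := hκ0 0
              positivity
    linarith
  · intro k
    obtain ⟨s1, s2, s3, s4, s5, s6, s7, -⟩ := hstep k
    have ea : dl k / 16 = 2 * (dl k / 32) := by ring
    have ea8 : dl k / 4 = 8 * (dl k / 32) := by ring
    have ha := (dl_bounds k).1
    simp only [hpow]
    refine ⟨Real.exp_le_exp.2 s1, ?_, ?_, ?_, ?_, ?_, ?_⟩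
    · have h1 := log_QE_le (Real.exp (u (k + 1))) (κ (k + 1)) (K (k + 1)) (hP1 _) (hκ0 _)
      rw [Real.log_exp] at h1
      rw [← hZ4]
      linarith
    · have h1 := QE_le (Real.exp (u k)) (κ k) (K k) (hP1 _) (hκ0 _)
      rw [Real.log_exp] at h1
      refine h1.trans (Real.exp_le_exp.2 ?_)
      rw [ea8]
      linarith
    · refine (hnb k).trans ?_
      have h1 := Real.add_one_le_exp (u (k + 1) * (dl k / 16))
      have h2 : u (k + 1) * (dl k / 16) = 2 * (dl k / 32) * u (k + 1) := by ring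
      rw [h2] at h1 ⊢
      linarith
    · refine (hnb (k + 1)).trans ?_
      have h0 : 0 ≤ 2 * (dl k / 32) * u (k + 1) := by
        have := hu1 (k + 1)
        positivity
      have h1 := Real.quadratic_le_exp_of_nonneg h0
      have h2 : u (k + 1) * (dl k / 16) = 2 * (dl k / 32) * u (k + 1) := by ring
      rw [h2]
      linarith
    · have h0 : (0 : ℝ) < 2 ^ k / δ := by positivity
      have h1 : 2 ^ k / δ ≤ Real.exp (8 * (dl k / 32) * u (k + 1)) := by
        have := Real.add_one_le_exp (8 * (dl k / 32) * u (k + 1))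
        linarith
      have h2 : u (k + 1) * -(dl k / 4) = -(8 * (dl k / 32) * u (k + 1)) := by ring
      have h3 := inv_anti₀ h0 h1
      rw [inv_div] at h3
      rw [h2, Real.exp_neg]
      exact h3
    · have := hle k
      linarith

theorem seqk : SEQKStatement := fun c δ B hc hδ hδ1 => seq_main c δ B hc hδ hδ1

end Pool.Agent.Lib.MP_6bc78b_nt.GP.G10S
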