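import Pool.Agent.Lib.MP_6bc78b_nt.GP.H62.Defs9
import Pool.Agent.Lib.MP_6bc78b_nt.GP.H6.Avg7

/-! Project GP9, module AVG9: a good `δ`. -/

set_option autoImplicit false

open Complex Filter Topology MeasureTheory ArithmeticFunction Set
open scoped ENNReal

namespace Pool.Agent.Lib.MP_6bc78b_nt.GP.G9

open Pool.Agent.Lib.MP_6bc78b_nt.MS Pool.Agent.Lib.MP_6bc78b_nt.MS.P1
open Pool.Agent.Lib.MP_6bc78b_nt.GP.G7 Pool.Agent.Lib.MP_6bc78b_nt.GP.H92
  Pool.Agent.Lib.MP_6bc78b_nt.GP.H4 Pool.Agent.Lib.MP_6bc78b_nt.GP.H6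

/-- AVG9. -/
theorem avg9 (h1 : ARE9Statement) (h2 : CHVStatement) (h4 : DX2Statement)
    (h5 : TAI9Statement) : AVG9Statement := by
  intro hRH A B D hD ε hε
  obtain ⟨a, b, R, κ₀, C₂, ha, hab, hR, hκ, hC₂, hchv⟩ := h2
  set C₅ : ℝ := 30 + 8 * (1 + κ₀ * R ^ 2) with hC₅
  have hC₅0 : 0 < C₅ := by positivity
  obtain ⟨T₁, hT₁, hare⟩ := h1 hRH A B D hD a b R κ₀ (ε / (4 * C₂ * C₅)) ha hab hR hκ
    (by positivity)
  obtain ⟨C₃, T₂, hC₃, hT₂, htai⟩ := h5 A B
  have hlll : Tendsto (fun T : ℝ => Real.log (Real.log (Real.log T))) atTop atTop :=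
    Real.tendsto_log_atTop.comp (Real.tendsto_log_atTop.comp Real.tendsto_log_atTop)
  obtain ⟨T₃, h3⟩ := eventually_atTop.1 (hlll.eventually_ge_atTop (max 1 (16 * C₃ / ε)))
  refine ⟨max T₁ (max T₂ T₃), lt_max_of_lt_left hT₁, ?_⟩
  intro T H lam hT hl1 hl2 hH
  have hTT₁ : T₁ ≤ T := (le_max_left _ _).trans hT
  have hTT₂ : T₂ ≤ T := (le_max_left _ _).trans ((le_max_right _ _).trans hT)
  have hTT₃ : T₃ ≤ T := (le_max_right _ _).trans ((le_max_right _ _).trans hT)
  have hT10 : 10 < T := lt_of_lt_of_le hT₁ hTT₁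
  have hT0 : 0 < T := by linarith
  have hL : 1 ≤ Real.log T := by
    rw [Real.le_log_iff_exp_le hT0]
    have := Real.exp_one_lt_d9
    linarith
  have hL0 : 0 < Real.log T := by linarith
  have h6 := h3 T hTT₃
  have hlam1 : 1 ≤ lam := ((le_max_left _ _).trans h6).trans hl1
  have hlamC : 16 * C₃ / ε ≤ lam := ((le_max_right _ _).trans h6).trans hl1
  have hlam0 : 0 < lam := by linarith
  have hlamT : lam ≤ T := by
    refine hl2.trans ?_
    have := Real.log_le_sub_one_of_pos hT0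
    linarith
  obtain ⟨N, hN1, hN2⟩ := exists_nat_pow_near hlam1 (by norm_num : (1 : ℝ) < 2)
  set LL : ℝ := Real.log T ^ 4 with hLL
  have hLL0 : 0 < LL := by positivity
  by_contra hcon
  push Not at hcon
  -- the majorant
  set G : ℝ → ℝ≥0∞ := fun δ => ∑ k ∈ Finset.range (N + 1),
    ENNReal.ofReal (11 * ((4 : ℝ)⁻¹) ^ k) * JJ A B (lam * (1 / 2) ^ k) δ +
      ENNReal.ofReal (2 * ((4 : ℝ)⁻¹) ^ N) * JJ A B 1 δ with hG
  set OO : ℝ → ℝ≥0∞ := fun δ => ENNReal.ofReal (4 / lam ^ 2) * ∫⁻ u in {u : ℝ | 1 / 2 < |u|},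
    ENNReal.ofReal (‖EE A B (zp u δ)‖ ^ 2 * Real.exp (-(2 * H * |u|) + u)) with hO
  have hGm : Measurable G :=
    (Finset.measurable_sum _ fun k _ => (meas_JJ h4 A B _).const_mul _).add
      ((meas_JJ h4 A B _).const_mul _)
  have hcompl : (Icc (-(1 / 2) : ℝ) (1 / 2))ᶜ = {u : ℝ | 1 / 2 < |u|} := by
    ext u
    rw [mem_compl_iff, mem_Icc, ← abs_le, not_le]
    rfl
  have hin : ∀ δ ∈ Icc (1 / T) (2 / T), ENNReal.ofReal (ε * T * LL) ≤ G δ + OO δ := by
    intro δ hδ
    have hδ0 : 0 < δ := lt_of_lt_of_le (by positivity) hδ.1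
    have hδh : δ ≤ 1 / 2 := by
      refine hδ.2.trans ?_
      rw [div_le_iff₀ hT0]
      linarith
    have e1 := hcon δ hδ
    rw [← lintegral_add_compl _ (measurableSet_Icc : MeasurableSet (Icc (-(1 / 2) : ℝ) (1 / 2)))]
      at e1
    refine e1.le.trans (add_le_add ?_ ?_)
    · refine le_trans ?_ (split_le h4 A B lam δ N)
      refine lintegral_mono fun u => ?_
      have hpos := zp_re_pos (u := u) hδ0 hδh
      unfold gE
      rw [if_pos hpos, ← ENNReal.ofReal_mul (by positivity)]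
      refine ENNReal.ofReal_le_ofReal ?_
      rw [mul_div_assoc]
      refine mul_le_mul_of_nonneg_left ?_ (by positivity)
      refine div_le_div_of_nonneg_right (Real.exp_le_exp.2 ?_) (by positivity)
      have : 0 ≤ 2 * H * |u| := by positivity
      linarith
    · rw [hcompl, hO]
      simp only
      rw [← lintegral_const_mul' _ _ ENNReal.ofReal_ne_top]
      have hmu : MeasurableSet {u : ℝ | 1 / 2 < |u|} :=
        measurableSet_lt measurable_const (by fun_prop)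
      refine setLIntegral_mono' hmu fun u hu => ?_
      rw [← ENNReal.ofReal_mul (by positivity)]
      refine ENNReal.ofReal_le_ofReal ?_
      have hu1 : 1 / 2 < |u| := hu
      have hu2 : 1 / 4 ≤ u ^ 2 := by
        rw [← sq_abs]
        nlinarith
      have e0 : (1 + lam ^ 2 * u ^ 2)⁻¹ ≤ 4 / lam ^ 2 := by
        rw [inv_eq_one_div, div_le_div_iff₀ (by positivity) (by positivity)]
        nlinarith [mul_le_mul_of_nonneg_left hu2 (sq_nonneg lam)]
      rw [div_eq_mul_inv, mul_comm]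
      exact mul_le_mul_of_nonneg_right e0 (by positivity)
  have hlow : ENNReal.ofReal (ε * LL) ≤ ∫⁻ δ in Icc (1 / T) (2 / T), (G δ + OO δ) := by
    have e1 : ∫⁻ _ in Icc (1 / T) (2 / T), ENNReal.ofReal (ε * T * LL) =
        ENNReal.ofReal (ε * LL) := by
      rw [setLIntegral_const, Real.volume_Icc, ← ENNReal.ofReal_mul (by positivity)]
      congr 1
      field_simp
      ring
    rw [← e1]
    exact setLIntegral_mono' measurableSet_Icc hin
  rw [lintegral_add_left hGm] at hlow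
  have hout : ∫⁻ δ in Icc (1 / T) (2 / T), OO δ ≤ ENNReal.ofReal (ε / 4 * LL) := by
    rw [hO]
    simp only
    rw [lintegral_const_mul' _ _ ENNReal.ofReal_ne_top]
    refine (mul_le_mul' le_rfl (htai T H hTT₂ hH)).trans ?_
    rw [← ENNReal.ofReal_mul (by positivity)]
    refine ENNReal.ofReal_le_ofReal ?_
    have e1 : 4 / lam ^ 2 * C₃ ≤ ε / 4 := by
      have e2 : 16 * C₃ ≤ ε * lam := by
        rw [div_le_iff₀ hε] at hlamC
        linarith
      have e3 : ε * lam ≤ ε * lam ^ 2 := by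
        refine mul_le_mul_of_nonneg_left ?_ hε.le
        nlinarith
      rw [div_mul_eq_mul_div, div_le_div_iff₀ (by positivity) (by norm_num)]
      linarith
    calc 4 / lam ^ 2 * (C₃ * Real.log T ^ 4) = 4 / lam ^ 2 * C₃ * Real.log T ^ 4 := by ring
      _ ≤ ε / 4 * Real.log T ^ 4 := mul_le_mul_of_nonneg_right e1 (by positivity)
      _ = ε / 4 * LL := by rw [hLL]
  -- one Gaussian
  have hms : MeasurableSet {z : ℂ | a / T ≤ z.re ∧ z.re ≤ b / T ∧ |z.im| ≤ R} := by
    have m1 : MeasurableSet {z : ℂ | a / T ≤ z.re} :=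
      measurableSet_le measurable_const Complex.measurable_re
    have m2 : MeasurableSet {z : ℂ | z.re ≤ b / T} :=
      measurableSet_le Complex.measurable_re measurable_const
    have m3 : MeasurableSet {z : ℂ | |z.im| ≤ R} :=
      measurableSet_le (f := fun z : ℂ => |z.im|) (g := fun _ => R)
        Complex.measurable_im.norm measurable_const
    exact m1.inter (m2.inter m3)
  have hgm : Measurable (gE A B) := measurable_gE h4 A B
  have hem : ∀ H' : ℝ, Measurable fun z : ℂ =>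
      ENNReal.ofReal (Real.exp (-(κ₀ * H' ^ 2 * z.im ^ 2))) := by
    intro H'
    refine Measurable.ennreal_ofReal (Continuous.measurable ?_)
    fun_prop
  have hme : ∀ H' : ℝ, Measurable fun z : ℂ => gE A B z *
      ENNReal.ofReal (Real.exp (-(κ₀ * H' ^ 2 * z.im ^ 2))) := fun H' => hgm.mul (hem H')
  have hJ : ∀ H' : ℝ, 1 ≤ H' → H' ≤ T → ∫⁻ δ in Icc (1 / T) (2 / T), JJ A B H' δ ≤
      ENNReal.ofReal C₂ * ∫⁻ z in {z : ℂ | a / T ≤ z.re ∧ z.re ≤ b / T ∧ |z.im| ≤ R},
        gE A B z * ENNReal.ofReal (Real.exp (-(κ₀ * H' ^ 2 * z.im ^ 2))) := fun H' hH1 hHT =>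
    hchv (gE A B) (measurable_gE h4 A B) T H' hT10.le hH1 hHT
  have hHk : ∀ k ∈ Finset.range (N + 1), 1 ≤ lam * (1 / 2) ^ k ∧ lam * (1 / 2) ^ k ≤ T := by
    intro k hk
    have hk' : k ≤ N := Nat.lt_succ_iff.1 (Finset.mem_range.1 hk)
    constructor
    · rw [one_div, inv_pow, ← div_eq_mul_inv, le_div_iff₀ (by positivity), one_mul]
      exact (pow_le_pow_right₀ (by norm_num) hk').trans hN1
    · refine (mul_le_of_le_one_right hlam0.le ?_).trans hlamT
      exact pow_le_one₀ (by norm_num) (by norm_num)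
  have hup : ∫⁻ δ in Icc (1 / T) (2 / T), G δ ≤ ENNReal.ofReal (ε / 4 * LL) := by
    have e0 : ∫⁻ δ in Icc (1 / T) (2 / T), G δ ≤
        ENNReal.ofReal C₂ * ∫⁻ z in {z : ℂ | a / T ≤ z.re ∧ z.re ≤ b / T ∧ |z.im| ≤ R},
          (∑ k ∈ Finset.range (N + 1), ENNReal.ofReal (11 * ((4 : ℝ)⁻¹) ^ k) *
            (gE A B z * ENNReal.ofReal (Real.exp (-(κ₀ * (lam * (1 / 2) ^ k) ^ 2 * z.im ^ 2)))) +
          ENNReal.ofReal (2 * ((4 : ℝ)⁻¹) ^ N) *
            (gE A B z * ENNReal.ofReal (Real.exp (-(κ₀ * 1 ^ 2 * z.im ^ 2))))) := by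
      rw [lintegral_add_left (Finset.measurable_sum _ fun k _ => (hme _).const_mul _),
        lintegral_finsetSum _ fun k _ => (hme _).const_mul _,
        lintegral_const_mul _ (hme _), mul_add, Finset.mul_sum]
      simp only [hG]
      rw [lintegral_add_left (Finset.measurable_sum _ fun k _ => (meas_JJ h4 A B _).const_mul _),
        lintegral_finsetSum _ fun k _ => (meas_JJ h4 A B _).const_mul _,
        lintegral_const_mul _ (meas_JJ h4 A B _)]
      refine add_le_add (Finset.sum_le_sum fun k hk => ?_) ?_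
      · rw [lintegral_const_mul _ (meas_JJ h4 A B _), lintegral_const_mul _ (hme _),
          mul_left_comm]
        exact mul_le_mul' le_rfl (hJ _ (hHk k hk).1 (hHk k hk).2)
      · rw [mul_left_comm]
        exact mul_le_mul' le_rfl (hJ 1 le_rfl (by linarith))
    refine e0.trans ?_
    have e1 : ∫⁻ z in {z : ℂ | a / T ≤ z.re ∧ z.re ≤ b / T ∧ |z.im| ≤ R},
          (∑ k ∈ Finset.range (N + 1), ENNReal.ofReal (11 * ((4 : ℝ)⁻¹) ^ k) *
            (gE A B z * ENNReal.ofReal (Real.exp (-(κ₀ * (lam * (1 / 2) ^ k) ^ 2 * z.im ^ 2)))) +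
          ENNReal.ofReal (2 * ((4 : ℝ)⁻¹) ^ N) *
            (gE A B z * ENNReal.ofReal (Real.exp (-(κ₀ * 1 ^ 2 * z.im ^ 2))))) ≤
        ∫⁻ z in strip a b R T, ENNReal.ofReal C₅ *
          ENNReal.ofReal (‖EE A B z‖ ^ 2 / (1 + κ₀ * lam ^ 2 * z.im ^ 2)) := by
      refine setLIntegral_mono' hms fun z hz => ?_
      have hpos : 0 < z.re := lt_of_lt_of_le (by positivity) hz.1
      have e2 := wsum hκ hlam1 hz.2.2 N hN2
      have e3 : ∑ k ∈ Finset.range (N + 1), ENNReal.ofReal (11 * ((4 : ℝ)⁻¹) ^ k) *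
            (gE A B z * ENNReal.ofReal (Real.exp (-(κ₀ * (lam * (1 / 2) ^ k) ^ 2 * z.im ^ 2)))) +
          ENNReal.ofReal (2 * ((4 : ℝ)⁻¹) ^ N) *
            (gE A B z * ENNReal.ofReal (Real.exp (-(κ₀ * 1 ^ 2 * z.im ^ 2)))) =
          gE A B z * ENNReal.ofReal (∑ k ∈ Finset.range (N + 1), 11 * ((4 : ℝ)⁻¹) ^ k *
        Real.exp (-(κ₀ * (lam * (1 / 2) ^ k) ^ 2 * z.im ^ 2)) +
      2 * ((4 : ℝ)⁻¹) ^ N * Real.exp (-(κ₀ * 1 ^ 2 * z.im ^ 2))) := by
        rw [ENNReal.ofReal_add (Finset.sum_nonneg fun k _ => by positivity) (by positivity),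
          ENNReal.ofReal_sum_of_nonneg fun k _ => by positivity, mul_add, Finset.mul_sum]
        congr 1
        · refine Finset.sum_congr rfl fun k _ => ?_
          rw [mul_left_comm, ← ENNReal.ofReal_mul (by positivity)]
        · rw [mul_left_comm, ← ENNReal.ofReal_mul (by positivity)]
      rw [e3]
      refine (mul_le_mul' le_rfl (ENNReal.ofReal_le_ofReal e2)).trans (le_of_eq ?_)
      unfold gE
      rw [if_pos hpos, ← ENNReal.ofReal_mul (by positivity), ← ENNReal.ofReal_mul hC₅0.le]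
      congr 1
      ring
    refine (mul_le_mul' le_rfl e1).trans ?_
    rw [lintegral_const_mul' _ _ ENNReal.ofReal_ne_top]
    refine (mul_le_mul' le_rfl (mul_le_mul' le_rfl (hare T lam hTT₁ hl1 hl2))).trans ?_
    rw [← ENNReal.ofReal_mul hC₅0.le, ← ENNReal.ofReal_mul hC₂.le]
    refine ENNReal.ofReal_le_ofReal (le_of_eq ?_)
    rw [hLL]
    field_simp
  have hfin := hlow.trans (add_le_add hup hout)
  rw [← ENNReal.ofReal_add (by positivity) (by positivity),
    ENNReal.ofReal_le_ofReal_iff (by positivity)] at hfin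
  nlinarith [mul_pos hε hLL0]

end Pool.Agent.Lib.MP_6bc78b_nt.GP.G9
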